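import Pool.Agent.W851.BE.Final
import Pool.Agent.W851.BE.Unif
import Pool.Agent.W95.BK.Asm

/-!
# Uniform averages over the repelling fixed points on the Berkovich projective line

If the Lyapunov exponent `χ(R) = ∫ log ‖R'‖ dρ` is positive, then the number of repelling fixed
points of `R^n` is `~ d^n` and their uniform averages converge to the equilibrium measure.
-/

open Topology Filter MeasureTheory
open scoped ENNReal
open Pool.Agent.W95.BK Pool.Agent.W95.EQ Pool.Agent.W851.BE

namespace Pool.Agent.Results.MP_db48a2_an.UniformAverages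

universe u

/-- Let `K` be a complete algebraically closed non-trivially valued non-Archimedean field, `R` a
rational map of degree `d ≥ 2` with equilibrium measure `ρ` and `χ(R) > 0`. Then the set `RF (R^n)`
of repelling fixed points of `R^n` is finite for `n ≥ 1`, its cardinality divided by `d^n` tends to
`1`, and the uniform averages over `RF (R^n)` converge weakly to `ρ`. -/
theorem result : ∀ (K : Type u) [NontriviallyNormedField K] [IsUltrametricDist K]
    [CompleteSpace K] [IsAlgClosed K] (R : RMap K), 2 ≤ R.d →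
    ∀ (ρ : Measure (P1B K)), IsEqMeasure R ρ →
    0 < ∫ x, Real.log (sphDeriv R x) ∂ρ →
    (∀ n : ℕ, 1 ≤ n → (RF (R.iter n)).Finite) ∧
    Tendsto (fun n : ℕ => ((RF (R.iter n)).ncard : ℝ) / (R.d : ℝ) ^ n) atTop (𝓝 1) ∧
    ∀ φ : C(P1B K, ℝ), Tendsto (fun n : ℕ => (∑ᶠ x ∈ RF (R.iter n), φ x) /
      ((RF (R.iter n)).ncard : ℝ)) atTop (𝓝 (∫ x, φ x ∂ρ)) := by
  intro K _ _ _ _ R hd ρ hρ hχ
  have := hρ.prob
  have hC : Concl R ρ := (Asm.final K R hd).2 ρ hρ
  have hV := Pool.Agent.W95.BK.asm K R hd ρ hρ.prob (tEQM K R hd ρ hρ) hχ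
  have h := Unif.main Asm.ld1 R hd ρ hC hV
  exact ⟨hC.1, h.1, h.2⟩

end Pool.Agent.Results.MP_db48a2_an.UniformAverages
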